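import Mathlib

set_option autoImplicit false

open MeasureTheory ProbabilityTheory
open scoped ENNReal NNReal Pointwise

namespace Pool.Agent.Results.MP_9aa340_pr.FiniteThreshold

/-! ### Definitions used in the statement -/

/-- A generating measure on the group `Γ`: a probability measure on `Γ` (given by its mass
function) which is symmetric and whose support generates `Γ` as a group. -/
structure GeneratingMeasure (Γ : Type*) [Group Γ] where
  /-- the probability mass function -/
  mass : PMF Γ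
  /-- symmetry -/
  symm : ∀ g : Γ, mass g = mass g⁻¹
  /-- the support generates the group -/
  gen : Subgroup.closure mass.support = ⊤

/-- The unordered pairs `{g, h}` of distinct elements of `Γ`. -/
abbrev Pair (Γ : Type*) : Type _ := {e : Sym2 Γ // ¬ e.IsDiag}

/-- The weight `μ (g⁻¹ h)` of the pair `{g, h}`. -/
noncomputable def weight {Γ : Type*} [Group Γ] (μ : GeneratingMeasure Γ) : Sym2 Γ → ℝ≥0 :=
  Sym2.lift ⟨fun g h => (μ.mass (g⁻¹ * h)).toNNReal, fun g h => by
    show (μ.mass (g⁻¹ * h)).toNNReal = (μ.mass (h⁻¹ * g)).toNNReal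
    rw [μ.symm (g⁻¹ * h), mul_inv_rev, inv_inv]⟩

/-- The law of the random multigraph `Γ_μ(t)`: the multiplicities of the pairs are independent,
and the multiplicity of `{g, h}` is Poisson with mean `t μ (g⁻¹ h)`. -/
noncomputable def law {Γ : Type*} [Group Γ] (μ : GeneratingMeasure Γ) (t : ℝ≥0) :
    Measure (Pair Γ → ℕ) :=
  Measure.infinitePi fun e : Pair Γ => poissonMeasure (t * weight μ e)

/-- The graph obtained from the multiplicities `ω` by merging parallel edges: two distinct elements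
are joined when the multiplicity of the pair is positive. -/
def openGraph {Γ : Type*} (ω : Pair Γ → ℕ) : SimpleGraph Γ where
  Adj g h := ∃ hne : ¬ (s(g, h)).IsDiag, 0 < ω ⟨s(g, h), hne⟩
  symm := ⟨fun g h hgh => by
    obtain ⟨hne, hω⟩ := hgh
    have e : (s(h, g) : Sym2 Γ) = s(g, h) := Sym2.eq_swap
    refine ⟨by rwa [e], ?_⟩
    have : (⟨s(h, g), by rwa [e]⟩ : Pair Γ) = ⟨s(g, h), hne⟩ := Subtype.ext e
    rw [this]; exact hω⟩
  loopless := ⟨fun g hg => hg.1 (Sym2.mk_isDiag_iff.2 rfl)⟩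

/-- The graph has an infinite connected component. -/
def HasInfiniteComponent {V : Type*} (G : SimpleGraph V) : Prop :=
  ∃ C : G.ConnectedComponent, C.supp.Infinite

/-- The critical parameter `λ_c(μ)`: the supremum in `[0, ∞]` of the `t > 0` for which `Γ_μ(t)`
has an infinite connected component with probability zero. -/
noncomputable def criticalParameter {Γ : Type*} [Group Γ] (μ : GeneratingMeasure Γ) : ℝ≥0∞ :=
  sSup {s : ℝ≥0∞ | ∃ t : ℝ≥0, 0 < t ∧
    law μ t {ω | HasInfiniteComponent (openGraph ω)} = 0 ∧ s = (t : ℝ≥0∞)}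

/-! ### Events determined by finitely many coordinates -/

section Det

variable {E : Type*}

/-- sigma-algebra generated by the coordinates in `I`. -/
@[reducible] def cs (I : Set E) : MeasurableSpace (E → ℕ) :=
  ⨆ i ∈ I, MeasurableSpace.comap (fun ω : E → ℕ => ω i) inferInstance

/-- `A` is determined by the coordinates in `I` -/
def Det (I : Set E) (A : Set (E → ℕ)) : Prop :=
  ∀ ω ω' : E → ℕ, (∀ e ∈ I, ω e = ω' e) → ω ∈ A → ω' ∈ A

theorem Det.mono {I J : Set E} {A : Set (E → ℕ)} (h : Det I A) (hIJ : I ⊆ J) : Det J A :=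
  fun ω ω' hω hA => h ω ω' (fun e he => hω e (hIJ he)) hA

theorem Det.compl {I : Set E} {A : Set (E → ℕ)} (h : Det I A) : Det I Aᶜ :=
  fun ω ω' hω hA hA' => hA (h ω' ω (fun e he => (hω e he).symm) hA')

theorem Det.inter {I : Set E} {A B : Set (E → ℕ)} (hA : Det I A) (hB : Det I B) :
    Det I (A ∩ B) :=
  fun ω ω' hω h => ⟨hA ω ω' hω h.1, hB ω ω' hω h.2⟩

theorem Det.union {I : Set E} {A B : Set (E → ℕ)} (hA : Det I A) (hB : Det I B) :
    Det I (A ∪ B) :=
  fun ω ω' hω h => h.imp (hA ω ω' hω) (hB ω ω' hω)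

theorem Det.meas' {I : Set E} (hI : I.Finite) {A : Set (E → ℕ)} (h : Det I A) :
    MeasurableSet[cs I] A := by
  classical
  have := hI.to_subtype
  let r : (E → ℕ) → (I → ℕ) := fun ω i => ω i
  have hr : MeasurableSpace.comap r MeasurableSpace.pi ≤ cs I := by
    rw [MeasurableSpace.pi, MeasurableSpace.comap_iSup]
    refine iSup_le fun i => ?_
    rw [MeasurableSpace.comap_comp]
    exact le_iSup₂_of_le i.1 i.2 le_rfl
  have e : A = r ⁻¹' (r '' A) := by
    refine subset_antisymm (Set.subset_preimage_image _ _) ?_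
    rintro ω ⟨ω', hω', he⟩
    refine h ω' ω (fun e he' => ?_) hω'
    exact congrFun he ⟨e, he'⟩
  rw [e]
  exact hr _ ⟨_, (Set.to_countable _).measurableSet, rfl⟩

theorem Det.meas {I : Set E} (hI : I.Finite) {A : Set (E → ℕ)} (h : Det I A) :
    MeasurableSet A := by
  have hle : cs I ≤ (MeasurableSpace.pi : MeasurableSpace (E → ℕ)) :=
    iSup₂_le fun i _ => (measurable_pi_apply i).comap_le
  exact hle _ (h.meas' hI)

theorem indep_real {P : E → Measure ℕ} [∀ e, IsProbabilityMeasure (P e)] {I J : Set E}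
    (hI : I.Finite) (hJ : J.Finite) (hIJ : Disjoint I J) {A B : Set (E → ℕ)}
    (hA : Det I A) (hB : Det J B) :
    (Measure.infinitePi P).real (A ∩ B) =
      (Measure.infinitePi P).real A * (Measure.infinitePi P).real B := by
  have h1 : iIndep (fun i : E => MeasurableSpace.comap (fun ω : E → ℕ => ω i) inferInstance)
      (Measure.infinitePi P) :=
    iIndepFun_infinitePi (P := P) (X := fun _ b => b) (by fun_prop)
  have h2 := indep_iSup_of_disjoint (fun i => (measurable_pi_apply i).comap_le) h1 hIJ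
  have h3 := (Indep_iff _ _ _).1 h2 A B (hA.meas' hI) (hB.meas' hJ)
  rw [measureReal_def, h3, ENNReal.toReal_mul, ← measureReal_def, ← measureReal_def]

end Det

/-! ### Sparse finite sets in an infinite group -/

section Sparse

variable {Γ : Type*} [Group Γ] [DecidableEq Γ]

theorem exists_sparse [Infinite Γ] (R : Finset Γ) (N : ℕ) :
    ∃ B : Finset Γ, B.card = N ∧
      (∀ b ∈ B, Disjoint R (R * {b} * R)) ∧
      (∀ b ∈ B, ∀ b' ∈ B, b ≠ b' → Disjoint (R * {b} * R) (R * {b'} * R)) := by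
  induction N with
  | zero => exact ⟨∅, rfl, by simp, by simp⟩
  | succ N ih =>
    obtain ⟨B, hcard, h1, h2⟩ := ih
    obtain ⟨b, hb⟩ := Infinite.exists_notMem_finset
      (B ∪ (R⁻¹ * R * R⁻¹) ∪ (R⁻¹ * (R * B * R) * R⁻¹))
    simp only [Finset.mem_union, not_or] at hb
    obtain ⟨⟨hb1, hb2⟩, hb3⟩ := hb
    have key1 : Disjoint R (R * {b} * R) := by
      rw [Finset.disjoint_left]
      intro r hr hr'
      apply hb2
      rw [Finset.mem_mul] at hr'
      obtain ⟨xb, hxb, y, hy, rfl⟩ := hr'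
      rw [Finset.mem_mul] at hxb
      obtain ⟨x, hx, b', hb', rfl⟩ := hxb
      rw [Finset.mem_singleton] at hb'
      subst hb'
      have : b' = x⁻¹ * (x * b' * y) * y⁻¹ := by group
      rw [this]
      exact Finset.mul_mem_mul (Finset.mul_mem_mul (Finset.inv_mem_inv hx) hr)
        (Finset.inv_mem_inv hy)
    have key2 : ∀ b' ∈ B, Disjoint (R * {b} * R) (R * {b'} * R) := by
      intro b' hb'
      rw [Finset.disjoint_left]
      intro z hz hz'
      apply hb3
      rw [Finset.mem_mul] at hz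
      obtain ⟨xb, hxb, y, hy, rfl⟩ := hz
      rw [Finset.mem_mul] at hxb
      obtain ⟨x, hx, b'', hb'', rfl⟩ := hxb
      rw [Finset.mem_singleton] at hb''
      subst hb''
      have : b'' = x⁻¹ * (x * b'' * y) * y⁻¹ := by group
      rw [this]
      refine Finset.mul_mem_mul (Finset.mul_mem_mul (Finset.inv_mem_inv hx) ?_)
        (Finset.inv_mem_inv hy)
      refine Finset.mul_subset_mul_right ?_ hz'
      exact Finset.mul_subset_mul_left (Finset.singleton_subset_iff.2 hb')
    refine ⟨insert b B, by rw [Finset.card_insert_of_notMem hb1, hcard], ?_, ?_⟩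
    · intro c hc
      rcases Finset.mem_insert.1 hc with rfl | hc
      · exact key1
      · exact h1 c hc
    · intro c hc c' hc' hne
      rcases Finset.mem_insert.1 hc with h3 | h3
      · rcases Finset.mem_insert.1 hc' with h4 | h4
        · exact absurd (h3.trans h4.symm) hne
        · rw [h3]; exact key2 c' h4
      · rcases Finset.mem_insert.1 hc' with h4 | h4
        · rw [h4]; exact (key2 c h3).symm
        · exact h2 c h3 c' h4 hne

end Sparse

/-! ### One step of the construction -/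

section Step

variable {Γ : Type*} [Group Γ] [DecidableEq Γ]

/-- the pairs inside `g R` -/
def inside (R : Finset Γ) (g : Γ) : Set (Pair Γ) := {e | ∀ z ∈ e.1, g⁻¹ * z ∈ R}

omit [Group Γ] in
theorem pairs_finite (T : Finset Γ) : {e : Pair Γ | ∀ z ∈ e.1, z ∈ T}.Finite := by
  have h : ((T ×ˢ T).image (fun q : Γ × Γ => s(q.1, q.2)) : Set (Sym2 Γ)).Finite :=
    Finset.finite_toSet _
  refine Set.Finite.subset (h.preimage (f := fun e : Pair Γ => e.1)
    Subtype.val_injective.injOn) ?_
  rintro ⟨e, he⟩ hz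
  induction e using Sym2.ind with
  | _ x y =>
    simp only [Set.mem_preimage, Finset.coe_image, Set.mem_image]
    refine ⟨(x, y), ?_, rfl⟩
    rw [Finset.mem_coe, Finset.mem_product]
    exact ⟨hz x (Sym2.mem_mk_left _ _), hz y (Sym2.mem_mk_right _ _)⟩

theorem inside_finite (R : Finset Γ) (g : Γ) : (inside R g).Finite := by
  refine (pairs_finite (R.image (fun r => g * r))).subset ?_
  intro e he z hz
  rw [Finset.mem_image]
  exact ⟨g⁻¹ * z, he z hz, by group⟩

/-- the event that the distinct elements `x`, `y` are joined -/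
def op (x y : Γ) : Set (Pair Γ → ℕ) := {ω | (openGraph ω).Adj x y}

/-- the coordinate of the pair `x`, `y` -/
def ed (x y : Γ) : Set (Pair Γ) := {e | e.1 = s(x, y)}

omit [Group Γ] in
theorem ed_finite (x y : Γ) : (ed x y).Finite := by
  refine (pairs_finite {x, y}).subset ?_
  intro e he z hz
  have he' : e.1 = s(x, y) := he
  rw [he', Sym2.mem_iff] at hz
  simpa using hz

omit [Group Γ] [DecidableEq Γ] in
theorem op_det (x y : Γ) : Det (ed x y) (op x y) := by
  rintro ω ω' h ⟨hne, hω⟩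
  refine ⟨hne, ?_⟩
  rw [← h ⟨s(x, y), hne⟩ rfl]
  exact hω

variable (R B : Finset Γ) (D : Γ → (Pair Γ → ℕ) → Finset Γ)

open Classical in
/-- the next exploration -/
noncomputable def next (g : Γ) (ω : Pair Γ → ℕ) : Finset Γ :=
  D g ω ∪ (D g ω).biUnion (fun x =>
    (B.filter (fun b => (openGraph ω).Adj x (x * b))).biUnion (fun b => D (x * b) ω))

/-- `D` is a local exploration: `D g` is a connected subset of `g R` containing `g`, determined
by the pairs inside `g R`. -/
structure Local : Prop where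
  one_mem : (1 : Γ) ∈ R
  sub : ∀ g ω, ∀ y ∈ D g ω, g⁻¹ * y ∈ R
  reach : ∀ g ω, ∀ y ∈ D g ω, (openGraph ω).Reachable g y
  dep : ∀ g ω ω', (∀ e ∈ inside R g, ω e = ω' e) → D g ω = D g ω'

variable {R B D}

theorem mem_next {g : Γ} {ω : Pair Γ → ℕ} {y : Γ} :
    y ∈ next B D g ω ↔ y ∈ D g ω ∨ ∃ x ∈ D g ω, ∃ b ∈ B, (openGraph ω).Adj x (x * b) ∧
      y ∈ D (x * b) ω := by
  unfold next
  simp only [Finset.mem_union, Finset.mem_biUnion, Finset.mem_filter]
  constructor
  · rintro (h | ⟨x, hx, b, ⟨hb, hadj⟩, hy⟩)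
    · exact Or.inl h
    · exact Or.inr ⟨x, hx, b, hb, hadj, hy⟩
  · rintro (h | ⟨x, hx, b, hb, hadj, hy⟩)
    · exact Or.inl h
    · exact Or.inr ⟨x, hx, b, ⟨hb, hadj⟩, hy⟩

theorem Local.next (h : Local R D) : Local (R ∪ R * B ∪ R * B * R) (next B D) := by
  have sub' : R ⊆ R ∪ R * B ∪ R * B * R :=
    Finset.subset_union_left.trans Finset.subset_union_left
  refine ⟨sub' h.one_mem, ?_, ?_, ?_⟩
  · intro g ω y hy
    rcases mem_next.1 hy with hy | ⟨x, hx, b, hb, _, hy⟩
    · exact sub' (h.sub g ω y hy)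
    · refine Finset.mem_union_right _ ?_
      have e : g⁻¹ * y = (g⁻¹ * x) * b * ((x * b)⁻¹ * y) := by group
      rw [e]
      exact Finset.mul_mem_mul (Finset.mul_mem_mul (h.sub g ω x hx) hb) (h.sub _ ω y hy)
  · intro g ω y hy
    rcases mem_next.1 hy with hy | ⟨x, hx, b, hb, hadj, hy⟩
    · exact h.reach g ω y hy
    · exact ((h.reach g ω x hx).trans hadj.reachable).trans (h.reach _ ω y hy)
  · intro g
    have key : ∀ ω ω', (∀ e ∈ inside (R ∪ R * B ∪ R * B * R) g, ω e = ω' e) →
        Pool.Agent.Results.MP_9aa340_pr.FiniteThreshold.next B D g ω ⊆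
        Pool.Agent.Results.MP_9aa340_pr.FiniteThreshold.next B D g ω' := by
      intro ω ω' hω y hy
      have e1 : D g ω = D g ω' := h.dep g ω ω' fun e he => hω e fun z hz => sub' (he z hz)
      rcases mem_next.1 hy with hy | ⟨x, hx, b, hb, hadj, hy⟩
      · exact mem_next.2 (Or.inl (e1 ▸ hy))
      · have e2 : D (x * b) ω = D (x * b) ω' := by
          refine h.dep _ ω ω' fun e he => hω e fun z hz => Finset.mem_union_right _ ?_
          have e3 : g⁻¹ * z = (g⁻¹ * x) * b * ((x * b)⁻¹ * z) := by group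
          rw [e3]
          exact Finset.mul_mem_mul (Finset.mul_mem_mul (h.sub g ω x hx) hb) (he z hz)
        refine mem_next.2 (Or.inr ⟨x, e1 ▸ hx, b, hb, ?_, e2 ▸ hy⟩)
        refine op_det x (x * b) ω ω' (fun e he => hω e fun z hz => ?_) hadj
        have he' : e.1 = s(x, x * b) := he
        rw [he', Sym2.mem_iff] at hz
        rcases hz with rfl | rfl
        · exact sub' (h.sub g ω _ hx)
        · refine Finset.mem_union_left _ (Finset.mem_union_right _ ?_)
          rw [← mul_assoc]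
          exact Finset.mul_mem_mul (h.sub g ω _ hx) hb
    intro ω ω' hω
    exact subset_antisymm (key ω ω' hω) (key ω' ω fun e he => (hω e he).symm)

/-- some `x ∈ S` is joined to `x b` and the exploration from `x b` is large -/
def U (D : Γ → (Pair Γ → ℕ) → Finset Γ) (M : ℕ) (b : Γ) (S : Finset Γ) : Set (Pair Γ → ℕ) :=
  {ω | ∃ x ∈ S, ω ∈ op x (x * b) ∧ M ≤ (D (x * b) ω).card}

/-- the coordinates used by `U` -/
def IU (R : Finset Γ) (b : Γ) (S : Finset Γ) : Set (Pair Γ) :=
  {e | ∃ x ∈ S, e ∈ ed x (x * b) ∨ e ∈ inside R (x * b)}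

theorem IU_finite (R : Finset Γ) (b : Γ) (S : Finset Γ) : (IU R b S).Finite := by
  have : IU R b S = ⋃ x ∈ S, (ed x (x * b) ∪ inside R (x * b)) := by
    ext e; simp [IU]
  rw [this]
  exact Set.Finite.biUnion (Finset.finite_toSet S)
    fun x _ => (ed_finite _ _).union (inside_finite _ _)

omit [DecidableEq Γ] in
theorem big_det (h : Local R D) (M : ℕ) (g : Γ) :
    Det (inside R g) {ω | M ≤ (D g ω).card} := by
  intro ω ω' hω hM
  show M ≤ (D g ω').card
  rw [← h.dep g ω ω' hω]
  exact hM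

omit [DecidableEq Γ] in
theorem U_det (h : Local R D) (M : ℕ) (b : Γ) (S : Finset Γ) :
    Det (IU R b S) (U D M b S) := by
  rintro ω ω' hω ⟨x, hx, h1, h2⟩
  refine ⟨x, hx, op_det x (x * b) ω ω' (fun e he => hω e ⟨x, hx, Or.inl he⟩) h1, ?_⟩
  exact big_det h M (x * b) ω ω' (fun e he => hω e ⟨x, hx, Or.inr he⟩) h2

theorem step_block (h : Local R D) {P : Pair Γ → Measure ℕ} [∀ e, IsProbabilityMeasure (P e)]
    {b : Γ} (hb : Disjoint R (R * {b} * R)) {M : ℕ} {θ p : ℝ} (hθ0 : 0 ≤ θ) (hp0 : 0 ≤ p)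
    (hp1 : p ≤ 1) (hθ : ∀ g, θ ≤ (Measure.infinitePi P).real {ω | M ≤ (D g ω).card})
    (hp : ∀ x, p ≤ (Measure.infinitePi P).real (op x (x * b)))
    (g : Γ) (S : Finset Γ) (hS : ∀ x ∈ S, g⁻¹ * x ∈ R) :
    θ * (1 - (1 - p) ^ S.card) ≤ (Measure.infinitePi P).real (U D M b S) := by
  classical
  have hmem : ∀ x r : Γ, g⁻¹ * x ∈ R → r ∈ R → g⁻¹ * (x * b * r) ∈ R * {b} * R := by
    intro x r hx hr
    have : g⁻¹ * (x * b * r) = g⁻¹ * x * b * r := by group
    rw [this]
    exact Finset.mul_mem_mul (Finset.mul_mem_mul hx (Finset.mem_singleton_self b)) hr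
  induction S using Finset.induction_on with
  | empty => simp
  | insert x S hxS ih =>
    have hx : g⁻¹ * x ∈ R := hS x (Finset.mem_insert_self _ _)
    have hS' : ∀ y ∈ S, g⁻¹ * y ∈ R := fun y hy => hS y (Finset.mem_insert_of_mem hy)
    have ih' := ih hS'
    set Q := (Measure.infinitePi P) with hQ
    -- disjointness of coordinates
    have hno : ∀ y : Γ, g⁻¹ * y ∈ R → (y * b)⁻¹ * x ∉ R := by
      intro y hy hbad
      have := hmem y _ hy hbad
      rw [mul_inv_cancel_left] at this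
      exact (Finset.disjoint_left.1 hb) hx this
    have hd1 : Disjoint (ed x (x * b)) (inside R (x * b)) := by
      rw [Set.disjoint_left]
      intro e he he'
      have he0 : e.1 = s(x, x * b) := he
      exact hno x hx (he' x (by rw [he0]; exact Sym2.mem_mk_left _ _))
    have hd2 : Disjoint (ed x (x * b)) (IU R b S) := by
      rw [Set.disjoint_left]
      rintro e he ⟨y, hy, he' | he'⟩
      · have he0 : e.1 = s(x, x * b) := he
        have he1 : e.1 = s(y, y * b) := he'
        rw [he0, Sym2.eq_iff] at he1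
        rcases he1 with ⟨h1, _⟩ | ⟨h1, _⟩
        · exact hxS (h1 ▸ hy)
        · refine hno y (hS' y hy) ?_
          rw [h1, inv_mul_cancel]
          exact h.one_mem
      · have he0 : e.1 = s(x, x * b) := he
        exact hno y (hS' y hy) (he' x (by rw [he0]; exact Sym2.mem_mk_left _ _))
    have e1 : Q.real (op x (x * b) ∩ {ω | M ≤ (D (x * b) ω).card}) =
        Q.real (op x (x * b)) * Q.real {ω | M ≤ (D (x * b) ω).card} :=
      indep_real (ed_finite _ _) (inside_finite _ _) hd1 (op_det _ _) (big_det h M _)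
    have e2 : Q.real ((op x (x * b))ᶜ ∩ U D M b S) =
        Q.real (op x (x * b))ᶜ * Q.real (U D M b S) :=
      indep_real (ed_finite _ _) (IU_finite _ _ _) hd2 (op_det _ _).compl (U_det h M b S)
    have e3 : Q.real (op x (x * b))ᶜ = 1 - Q.real (op x (x * b)) :=
      probReal_compl_eq_one_sub ((op_det _ _).meas (ed_finite _ _))
    have e4 : Q.real ((op x (x * b) ∩ {ω | M ≤ (D (x * b) ω).card}) ∪
        ((op x (x * b))ᶜ ∩ U D M b S)) ≤ Q.real (U D M b (insert x S)) := by
      refine measureReal_mono ?_ (measure_ne_top _ _)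
      rintro ω (⟨h1, h2⟩ | ⟨_, y, hy, h2⟩)
      · exact ⟨x, Finset.mem_insert_self _ _, h1, h2⟩
      · exact ⟨y, Finset.mem_insert_of_mem hy, h2⟩
    rw [measureReal_union] at e4
    · rw [e1, e2, e3] at e4
      refine le_trans ?_ e4
      rw [Finset.card_insert_of_notMem hxS, pow_succ]
      set o := Q.real (op x (x * b)) with ho
      have ho1 : o ≤ 1 := measureReal_le_one
      have hpo : p ≤ o := hp x
      have hG : θ ≤ Q.real {ω | M ≤ (D (x * b) ω).card} := hθ _
      have hpk : 0 ≤ (1 - p) ^ S.card := pow_nonneg (by linarith) _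
      have hpk1 : (1 - p) ^ S.card ≤ 1 := pow_le_one₀ (by linarith) (by linarith)
      have f1 : o * θ ≤ o * Q.real {ω | M ≤ (D (x * b) ω).card} :=
        mul_le_mul_of_nonneg_left hG (by linarith)
      have f2 : (1 - o) * (θ * (1 - (1 - p) ^ S.card)) ≤ (1 - o) * Q.real (U D M b S) :=
        mul_le_mul_of_nonneg_left ih' (by linarith)
      have f3 : 0 ≤ θ * ((o - p) * (1 - p) ^ S.card) :=
        mul_nonneg hθ0 (mul_nonneg (by linarith) hpk)
      nlinarith [f1, f2, f3]
    · rw [Set.disjoint_left]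
      rintro ω ⟨h1, _⟩ ⟨h2, _⟩
      exact h2 h1
    · exact ((op_det _ _).compl.meas (ed_finite _ _)).inter ((U_det h M b S).meas (IU_finite _ _ _))

/-- the pairs inside `g R ∪ g R b R` with an endpoint in `g R b R` -/
def zone (R : Finset Γ) (g b : Γ) : Set (Pair Γ) :=
  {e | (∃ z ∈ e.1, g⁻¹ * z ∈ R * {b} * R) ∧ ∀ z ∈ e.1, g⁻¹ * z ∈ R ∨ g⁻¹ * z ∈ R * {b} * R}

theorem IU_zone (h1 : (1 : Γ) ∈ R) (g b : Γ) (S : Finset Γ) (hS : ∀ x ∈ S, g⁻¹ * x ∈ R) :
    IU R b S ⊆ zone R g b := by
  have hmem : ∀ x r : Γ, g⁻¹ * x ∈ R → r ∈ R → g⁻¹ * (x * b * r) ∈ R * {b} * R := by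
    intro x r hx hr
    have : g⁻¹ * (x * b * r) = g⁻¹ * x * b * r := by group
    rw [this]
    exact Finset.mul_mem_mul (Finset.mul_mem_mul hx (Finset.mem_singleton_self b)) hr
  have hmem' : ∀ x : Γ, g⁻¹ * x ∈ R → g⁻¹ * (x * b) ∈ R * {b} * R := by
    intro x hx
    have := hmem x 1 hx h1
    rwa [mul_one] at this
  rintro e ⟨x, hx, he | he⟩
  · have he0 : e.1 = s(x, x * b) := he
    refine ⟨⟨x * b, by rw [he0]; exact Sym2.mem_mk_right _ _, hmem' x (hS x hx)⟩, ?_⟩
    intro z hz
    rw [he0, Sym2.mem_iff] at hz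
    rcases hz with rfl | rfl
    · exact Or.inl (hS _ hx)
    · exact Or.inr (hmem' x (hS x hx))
  · have key : ∀ z ∈ e.1, g⁻¹ * z ∈ R * {b} * R := by
      intro z hz
      have := hmem x _ (hS x hx) (he z hz)
      rwa [mul_inv_cancel_left] at this
    refine ⟨?_, fun z hz => Or.inr (key z hz)⟩
    obtain ⟨e, hne⟩ := e
    induction e using Sym2.ind with
    | _ u v => exact ⟨u, Sym2.mem_mk_left _ _, key u (Sym2.mem_mk_left _ _)⟩

/-- Given that the exploration from `g` is `S`, the explorations through the different `b ∈ B`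
fail independently. -/
theorem step_fail (h : Local R D) {P : Pair Γ → Measure ℕ} [∀ e, IsProbabilityMeasure (P e)]
    (hB1 : ∀ b ∈ B, Disjoint R (R * {b} * R))
    (hB2 : ∀ b ∈ B, ∀ b' ∈ B, b ≠ b' → Disjoint (R * {b} * R) (R * {b'} * R))
    {M : ℕ} {q : ℝ} (g : Γ) (S : Finset Γ) (hS : ∀ x ∈ S, g⁻¹ * x ∈ R)
    (hq1 : q ≤ 1)
    (hq : ∀ b ∈ B, q ≤ (Measure.infinitePi P).real (U D M b S))
    (A : Set (Pair Γ → ℕ)) (hA : Det (inside R g) A) :
    (Measure.infinitePi P).real (A ∩ {ω | ∀ b ∈ B, ω ∉ U D M b S}) ≤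
      (Measure.infinitePi P).real A * (1 - q) ^ B.card := by
  classical
  set Q := (Measure.infinitePi P) with hQ
  have main : ∀ B' ⊆ B, Q.real (A ∩ {ω | ∀ b ∈ B', ω ∉ U D M b S}) ≤
      Q.real A * (1 - q) ^ B'.card := by
    intro B'
    induction B' using Finset.induction_on with
    | empty => intro _; simp
    | insert c B' hc ih =>
      intro hsub
      have hcB : c ∈ B := hsub (Finset.mem_insert_self _ _)
      have hB' : B' ⊆ B := (Finset.subset_insert _ _).trans hsub
      have ih' := ih hB'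
      set J : Set (Pair Γ) := inside R g ∪ ⋃ b ∈ B', IU R b S with hJ
      have hJf : J.Finite := (inside_finite _ _).union
        (Set.Finite.biUnion (Finset.finite_toSet B') fun b _ => IU_finite _ _ _)
      have hdet : Det J (A ∩ {ω | ∀ b ∈ B', ω ∉ U D M b S}) := by
        refine Det.inter (hA.mono Set.subset_union_left) ?_
        intro ω ω' hω hb b hbB
        refine (U_det h M b S).compl ω ω' (fun e he => hω e ?_) (hb b hbB)
        exact Set.mem_union_right _ (Set.mem_biUnion (Finset.mem_coe.2 hbB) he)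
      have hdisj : Disjoint J (IU R c S) := by
        rw [Set.disjoint_left]
        intro e heJ hec
        have hz := IU_zone h.one_mem g c S hS hec
        obtain ⟨⟨z, hz, hzR⟩, _⟩ := hz
        rcases heJ with he | he
        · exact Finset.disjoint_left.1 (hB1 c hcB) (he z hz) hzR
        · simp only [Set.mem_iUnion] at he
          obtain ⟨b, hb, he⟩ := he
          have hzb := (IU_zone h.one_mem g b S hS he).2 z hz
          rcases hzb with hzb | hzb
          · exact Finset.disjoint_left.1 (hB1 c hcB) hzb hzR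
          · refine Finset.disjoint_left.1 (hB2 b (hB' hb) c hcB ?_) hzb hzR
            rintro rfl
            exact hc hb
      have e1 := indep_real (P := P) hJf (IU_finite R c S) hdisj hdet (U_det h M c S).compl
      have e2 : A ∩ {ω | ∀ b ∈ insert c B', ω ∉ U D M b S} =
          (A ∩ {ω | ∀ b ∈ B', ω ∉ U D M b S}) ∩ (U D M c S)ᶜ := by
        ext ω
        simp only [Set.mem_inter_iff, Set.mem_ofPred_eq, Finset.mem_insert, forall_eq_or_imp,
          Set.mem_compl_iff]
        tauto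
      have e3 : Q.real (U D M c S)ᶜ ≤ 1 - q := by
        rw [hQ, probReal_compl_eq_one_sub ((U_det h M c S).meas (IU_finite _ _ _))]
        have := hq c hcB
        rw [hQ] at this
        linarith
      rw [e2, Finset.card_insert_of_notMem hc, pow_succ, ← mul_assoc]
      rw [hQ, e1, ← hQ]
      exact mul_le_mul ih' e3 measureReal_nonneg
        (mul_nonneg measureReal_nonneg (pow_nonneg (by linarith) _))
  exact main B subset_rfl

/-- the doubling step -/
theorem step_total (h : Local R D) {P : Pair Γ → Measure ℕ} [∀ e, IsProbabilityMeasure (P e)]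
    (hB1 : ∀ b ∈ B, Disjoint R (R * {b} * R))
    (hB2 : ∀ b ∈ B, ∀ b' ∈ B, b ≠ b' → Disjoint (R * {b} * R) (R * {b'} * R))
    {M : ℕ} {θ p : ℝ} (hθ0 : 0 ≤ θ) (hp0 : 0 ≤ p) (hp1 : p ≤ 1)
    (hθ : ∀ g, θ ≤ (Measure.infinitePi P).real {ω | M ≤ (D g ω).card})
    (hp : ∀ b ∈ B, ∀ x, p ≤ (Measure.infinitePi P).real (op x (x * b))) (g : Γ) :
    θ * (1 - (1 - θ * (1 - (1 - p) ^ M)) ^ B.card) ≤
      (Measure.infinitePi P).real {ω | 2 * M ≤ (next B D g ω).card} := by
  classical
  set Q := (Measure.infinitePi P) with hQ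
  have hθ1 : θ ≤ 1 := (hθ g).trans measureReal_le_one
  set q : ℝ := θ * (1 - (1 - p) ^ M) with hq
  have hpM0 : 0 ≤ (1 - p) ^ M := pow_nonneg (by linarith) _
  have hpM1 : (1 - p) ^ M ≤ 1 := pow_le_one₀ (by linarith) (by linarith)
  have hq0 : 0 ≤ q := mul_nonneg hθ0 (by linarith)
  have hq1 : q ≤ 1 := by
    rw [hq]
    calc θ * (1 - (1 - p) ^ M) ≤ 1 * 1 :=
          mul_le_mul hθ1 (by linarith) (by linarith) (by norm_num)
      _ = 1 := one_mul 1
  set T : Finset (Finset Γ) := (R.image (fun r => g * r)).powerset.filter (fun S => M ≤ S.card)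
    with hT
  have hTS : ∀ S ∈ T, (∀ x ∈ S, g⁻¹ * x ∈ R) ∧ M ≤ S.card := by
    intro S hS
    rw [hT, Finset.mem_filter, Finset.mem_powerset] at hS
    refine ⟨fun x hx => ?_, hS.2⟩
    obtain ⟨r, hr, rfl⟩ := Finset.mem_image.1 (hS.1 hx)
    rwa [inv_mul_cancel_left]
  have hAdet : ∀ S : Finset Γ, Det (inside R g) {ω | D g ω = S} := by
    intro S ω ω' hω hS
    show D g ω' = S
    rw [← h.dep g ω ω' hω]
    exact hS
  set Big : Set (Pair Γ → ℕ) := {ω | M ≤ (D g ω).card} with hBig
  set Tgt : Set (Pair Γ → ℕ) := {ω | 2 * M ≤ (next B D g ω).card} with hTgt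
  have hfail : Big \ Tgt ⊆ ⋃ S ∈ T, ({ω | D g ω = S} ∩ {ω | ∀ b ∈ B, ω ∉ U D M b S}) := by
    rintro ω ⟨h1, h2⟩
    have h1' : M ≤ (D g ω).card := h1
    have h2' : ¬ 2 * M ≤ (next B D g ω).card := h2
    refine Set.mem_biUnion (x := D g ω) ?_ ⟨rfl, ?_⟩
    · rw [hT]
      refine Finset.mem_coe.2 (Finset.mem_filter.2 ⟨Finset.mem_powerset.2 ?_, h1'⟩)
      intro y hy
      exact Finset.mem_image.2 ⟨g⁻¹ * y, h.sub g ω y hy, by group⟩
    · rintro b hb ⟨x, hx, hadj, hM⟩
      apply h2'
      have hsub : D g ω ∪ D (x * b) ω ⊆ next B D g ω := by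
        intro y hy
        rcases Finset.mem_union.1 hy with hy | hy
        · exact mem_next.2 (Or.inl hy)
        · exact mem_next.2 (Or.inr ⟨x, hx, b, hb, hadj, hy⟩)
      have hdis : Disjoint (D g ω) (D (x * b) ω) := by
        rw [Finset.disjoint_left]
        intro y hy hy'
        refine Finset.disjoint_left.1 (hB1 b hb) (h.sub g ω y hy) ?_
        have e : g⁻¹ * y = (g⁻¹ * x) * b * ((x * b)⁻¹ * y) := by group
        rw [e]
        exact Finset.mul_mem_mul (Finset.mul_mem_mul (h.sub g ω x hx)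
          (Finset.mem_singleton_self b)) (h.sub _ ω y hy')
      have := Finset.card_le_card hsub
      rw [Finset.card_union_of_disjoint hdis] at this
      omega
  have hsum : Q.real (Big \ Tgt) ≤ Q.real Big * (1 - q) ^ B.card := by
    calc Q.real (Big \ Tgt)
        ≤ Q.real (⋃ S ∈ T, ({ω | D g ω = S} ∩ {ω | ∀ b ∈ B, ω ∉ U D M b S})) :=
          measureReal_mono hfail (measure_ne_top _ _)
      _ ≤ ∑ S ∈ T, Q.real ({ω | D g ω = S} ∩ {ω | ∀ b ∈ B, ω ∉ U D M b S}) :=
          measureReal_biUnion_finset_le _ _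
      _ ≤ ∑ S ∈ T, Q.real {ω | D g ω = S} * (1 - q) ^ B.card := by
          refine Finset.sum_le_sum fun S hS => ?_
          obtain ⟨hS1, hS2⟩ := hTS S hS
          refine step_fail h hB1 hB2 g S hS1 hq1 (fun b hb => ?_) _ (hAdet S)
          refine le_trans ?_ (step_block h (hB1 b hb) hθ0 hp0 hp1 hθ (hp b hb) g S hS1)
          rw [hq]
          refine mul_le_mul_of_nonneg_left ?_ hθ0
          have := pow_le_pow_of_le_one (show 0 ≤ 1 - p by linarith) (by linarith) hS2
          linarith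
      _ = (∑ S ∈ T, Q.real {ω | D g ω = S}) * (1 - q) ^ B.card := by rw [Finset.sum_mul]
      _ ≤ Q.real Big * (1 - q) ^ B.card := by
          refine mul_le_mul_of_nonneg_right ?_ (pow_nonneg (by linarith) _)
          rw [← measureReal_biUnion_finset]
          · refine measureReal_mono ?_ (measure_ne_top _ _)
            intro ω hω
            simp only [Set.mem_iUnion] at hω
            obtain ⟨S, hS, hωS⟩ := hω
            have hωS' : D g ω = S := hωS
            show M ≤ (D g ω).card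
            rw [hωS']
            exact (hTS S hS).2
          · intro S _ S' _ hne
            rw [Function.onFun, Set.disjoint_left]
            intro ω h1 h2
            have h1' : D g ω = S := h1
            have h2' : D g ω = S' := h2
            exact hne (h1'.symm.trans h2')
          · intro S _
            exact (hAdet S).meas (inside_finite _ _)
  have hBT : Q.real Big ≤ Q.real (Big \ Tgt) + Q.real Tgt := by
    calc Q.real Big ≤ Q.real ((Big \ Tgt) ∪ Tgt) :=
          measureReal_mono (by intro ω hω; by_cases h' : ω ∈ Tgt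
                               · exact Or.inr h'
                               · exact Or.inl ⟨hω, h'⟩) (measure_ne_top _ _)
      _ ≤ _ := measureReal_union_le _ _
  have hpow0 : 0 ≤ (1 - q) ^ B.card := pow_nonneg (by linarith) _
  have hpow1 : (1 - q) ^ B.card ≤ 1 := pow_le_one₀ (by linarith) (by linarith)
  have h5 : θ * (1 - (1 - q) ^ B.card) ≤ Q.real Big * (1 - (1 - q) ^ B.card) :=
    mul_le_mul_of_nonneg_right (hθ g) (by linarith)
  linarith

end Step

/-! ### The construction -/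

section Construction

variable (Γ : Type*) [Group Γ] [Infinite Γ] [DecidableEq Γ]

/-- the regions -/
noncomputable def RR : ℕ → Finset Γ
  | 0 => {1}
  | n + 1 => RR n ∪ RR n * Classical.choose (exists_sparse (RR n) (192 * 2 ^ n)) ∪
      RR n * Classical.choose (exists_sparse (RR n) (192 * 2 ^ n)) * RR n

/-- the sparse sets -/
noncomputable def BB (n : ℕ) : Finset Γ := Classical.choose (exists_sparse (RR Γ n) (192 * 2 ^ n))

theorem BB_card (n : ℕ) : (BB Γ n).card = 192 * 2 ^ n :=
  (Classical.choose_spec (exists_sparse (RR Γ n) (192 * 2 ^ n))).1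

theorem BB_1 (n : ℕ) : ∀ b ∈ BB Γ n, Disjoint (RR Γ n) (RR Γ n * {b} * RR Γ n) :=
  (Classical.choose_spec (exists_sparse (RR Γ n) (192 * 2 ^ n))).2.1

theorem BB_2 (n : ℕ) : ∀ b ∈ BB Γ n, ∀ b' ∈ BB Γ n, b ≠ b' →
    Disjoint (RR Γ n * {b} * RR Γ n) (RR Γ n * {b'} * RR Γ n) :=
  (Classical.choose_spec (exists_sparse (RR Γ n) (192 * 2 ^ n))).2.2

/-- the explorations -/
noncomputable def DD : ℕ → Γ → (Pair Γ → ℕ) → Finset Γ
  | 0 => fun g _ => {g}
  | n + 1 => next (BB Γ n) (DD n)

theorem DD_local (n : ℕ) : Local (RR Γ n) (DD Γ n) := by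
  induction n with
  | zero =>
    refine ⟨by simp [RR], ?_, ?_, ?_⟩
    · intro g ω y hy
      simp only [DD, Finset.mem_singleton] at hy
      simp [RR, hy]
    · intro g ω y hy
      simp only [DD, Finset.mem_singleton] at hy
      rw [hy]
    · intro g ω ω' _
      rfl
  | succ n ih => exact ih.next

/-- the lower bounds of the probabilities -/
noncomputable def th (n : ℕ) : ℝ := 1 / 2 + 1 / 2 * (3 / 4) ^ n

/-- the lower bound for the mass of the elements of `BB n` -/
noncomputable def mm (n : ℕ) : ℝ := (1 / 3) * (2 / 3) ^ n / (2 * (192 * 2 ^ n + 1))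

theorem arith (n : ℕ) :
    th (n + 1) ≤ th n * (1 - (1 - th n *
      (1 - (1 - (1 - Real.exp (-(384 * mm n)))) ^ (2 ^ n))) ^ (192 * 2 ^ n)) := by
  have h34 : (0 : ℝ) < (3 / 4) ^ n := by positivity
  have h34' : ((3 : ℝ) / 4) ^ n ≤ 1 := pow_le_one₀ (by norm_num) (by norm_num)
  have hth1 : th n ≤ 1 := by unfold th; linarith
  have hth2 : 1 / 2 ≤ th n := by unfold th; linarith
  have h2 : (1 : ℝ) ≤ 2 ^ n := one_le_pow₀ (by norm_num)
  have h43 : ((4 : ℝ) / 3) ^ n ≤ 2 ^ n := pow_le_pow_left₀ (by norm_num) (by norm_num) n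
  have h43p : (0 : ℝ) < (4 / 3) ^ n := by positivity
  set x : ℝ := 64 * (4 / 3) ^ n / (192 * 2 ^ n + 1) with hx
  have hxm : 384 * mm n * 2 ^ n = x := by
    unfold mm
    rw [hx]
    have : ((4 : ℝ) / 3) ^ n = (2 / 3) ^ n * 2 ^ n := by rw [← mul_pow]; norm_num
    rw [this]
    field_simp
    ring
  have hx0 : 0 ≤ x := by positivity
  have hx1 : x ≤ 1 := by
    rw [hx, div_le_one (by positivity)]
    nlinarith
  have e1 : (1 - (1 - Real.exp (-(384 * mm n)))) ^ (2 ^ n) = Real.exp (-x) := by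
    rw [sub_sub_cancel, ← Real.exp_nat_mul]
    congr 1
    push_cast
    linarith [hxm]
  rw [e1]
  have h3 : x / 2 ≤ 1 - Real.exp (-x) := by
    have h4 : Real.exp (-x) ≤ 1 / (1 + x) := by
      rw [Real.exp_neg, ← one_div]
      apply one_div_le_one_div_of_le (by linarith)
      linarith [Real.add_one_le_exp x]
    have h5 : 1 / (1 + x) ≤ 1 - x / 2 := by
      rw [div_le_iff₀ (by linarith)]
      nlinarith
    linarith
  have h3' : Real.exp (-x) ≤ 1 := Real.exp_le_one_iff.2 (by linarith)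
  set y : ℝ := th n * (1 - Real.exp (-x)) with hy
  have hy4 : x / 4 ≤ y := by
    rw [hy]
    nlinarith
  have hy1 : y ≤ 1 := by
    rw [hy]
    have : 0 < Real.exp (-x) := Real.exp_pos _
    nlinarith
  have h6 : (1 - y) ^ (192 * 2 ^ n) ≤ Real.exp (-(8 * (4 / 3) ^ n)) := by
    have h7 : (1 - y) ^ (192 * 2 ^ n) ≤ (Real.exp (-(x / 4))) ^ (192 * 2 ^ n) := by
      apply pow_le_pow_left₀ (by linarith)
      have := Real.add_one_le_exp (-(x / 4))
      linarith
    refine h7.trans ?_
    rw [← Real.exp_nat_mul, Real.exp_le_exp]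
    push_cast
    have h8 : 8 * (4 / 3 : ℝ) ^ n ≤ 192 * 2 ^ n * (x / 4) := by
      rw [hx]
      have : 192 * (2 : ℝ) ^ n * (64 * (4 / 3) ^ n / (192 * 2 ^ n + 1) / 4) =
          (192 * 2 ^ n * (16 * (4 / 3) ^ n)) / (192 * 2 ^ n + 1) := by
        field_simp
        ring
      rw [this, le_div_iff₀ (by positivity)]
      nlinarith
    linarith
  have h9 : Real.exp (-(8 * (4 / 3) ^ n)) ≤ 1 / 8 * (3 / 4) ^ n := by
    rw [Real.exp_neg, ← one_div]
    have h10 : (8 * (4 / 3 : ℝ) ^ n) ≤ Real.exp (8 * (4 / 3) ^ n) := by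
      linarith [Real.add_one_le_exp (8 * (4 / 3 : ℝ) ^ n)]
    have h11 : (1 : ℝ) / 8 * (3 / 4) ^ n = 1 / (8 * (4 / 3) ^ n) := by
      have : ((3 : ℝ) / 4) ^ n = 1 / (4 / 3) ^ n := by
        rw [← one_div_pow]; norm_num
      rw [this]
      field_simp
    rw [h11]
    exact one_div_le_one_div_of_le (by positivity) h10
  have h12 : (1 - y) ^ (192 * 2 ^ n) ≤ 1 / 8 * (3 / 4) ^ n := h6.trans h9
  have h13 : th (n + 1) = th n - 1 / 8 * (3 / 4) ^ n := by
    unfold th
    rw [pow_succ]
    ring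
  rw [h13]
  have h14 : 0 ≤ (1 - y) ^ (192 * 2 ^ n) := pow_nonneg (by linarith) _
  nlinarith

theorem main_bound {P : Pair Γ → Measure ℕ} [∀ e, IsProbabilityMeasure (P e)]
    (hp : ∀ n, ∀ b ∈ BB Γ n, ∀ x, 1 - Real.exp (-(384 * mm n)) ≤
      (Measure.infinitePi P).real (op x (x * b))) (n : ℕ) :
    ∀ g : Γ, th n ≤ (Measure.infinitePi P).real {ω | 2 ^ n ≤ (DD Γ n g ω).card} := by
  induction n with
  | zero =>
    intro g
    have : {ω : Pair Γ → ℕ | 2 ^ 0 ≤ (DD Γ 0 g ω).card} = Set.univ := by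
      ext ω; simp [DD]
    rw [this]
    simp [th]
    norm_num
  | succ n ih =>
    intro g
    have hm : 0 ≤ mm n := by unfold mm; positivity
    have h1 := step_total (DD_local Γ n) (P := P) (BB_1 Γ n) (BB_2 Γ n) (M := 2 ^ n) (θ := th n)
      (p := 1 - Real.exp (-(384 * mm n))) (by unfold th; positivity)
      (by have : Real.exp (-(384 * mm n)) ≤ 1 := Real.exp_le_one_iff.2 (by linarith)
          linarith)
      (by have := Real.exp_pos (-(384 * mm n)); linarith)
      ih (hp n) g
    rw [BB_card] at h1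
    refine (arith n).trans (h1.trans (le_of_eq ?_))
    congr 1
    ext ω
    show 2 * 2 ^ n ≤ _ ↔ 2 ^ (n + 1) ≤ _
    rw [pow_succ, mul_comm]
    rfl

theorem infinite_prob {P : Pair Γ → Measure ℕ} [∀ e, IsProbabilityMeasure (P e)]
    (hp : ∀ n, ∀ b ∈ BB Γ n, ∀ x, 1 - Real.exp (-(384 * mm n)) ≤
      (Measure.infinitePi P).real (op x (x * b))) :
    (Measure.infinitePi P) {ω | HasInfiniteComponent (openGraph ω)} ≠ 0 := by
  set Q := (Measure.infinitePi P) with hQ
  -- the event that infinitely many explorations from the identity are large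
  set F : ℕ → Set (Pair Γ → ℕ) := fun k => ⋃ n, ⋃ _ : k ≤ n, {ω | 2 ^ n ≤ (DD Γ n 1 ω).card}
    with hF
  have hEm : ∀ n, MeasurableSet {ω : Pair Γ → ℕ | 2 ^ n ≤ (DD Γ n 1 ω).card} := fun n =>
    (big_det (DD_local Γ n) (2 ^ n) 1).meas (inside_finite _ _)
  have hFm : ∀ k, MeasurableSet (F k) := fun k =>
    MeasurableSet.iUnion fun n => MeasurableSet.iUnion fun _ => hEm n
  have hanti : Antitone F := by
    intro k l hkl ω hω
    simp only [hF, Set.mem_iUnion] at hω ⊢
    obtain ⟨n, hn, h⟩ := hω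
    exact ⟨n, hkl.trans hn, h⟩
  have hlow : ∀ k, ENNReal.ofReal (1 / 2) ≤ Q (F k) := by
    intro k
    have h1 : (1 / 2 : ℝ) ≤ Q.real {ω | 2 ^ k ≤ (DD Γ k 1 ω).card} := by
      refine le_trans ?_ (main_bound Γ hp k 1)
      unfold th
      have : (0 : ℝ) < (3 / 4) ^ k := by positivity
      linarith
    have h2 : {ω : Pair Γ → ℕ | 2 ^ k ≤ (DD Γ k 1 ω).card} ⊆ F k := by
      intro ω hω
      simp only [hF, Set.mem_iUnion]
      exact ⟨k, le_rfl, hω⟩
    refine le_trans ?_ (measure_mono h2)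
    rw [measureReal_def] at h1
    exact (ENNReal.ofReal_le_ofReal h1).trans ENNReal.ofReal_toReal_le
  have hlim := tendsto_measure_iInter_atTop (μ := Q) (fun k => (hFm k).nullMeasurableSet) hanti
    ⟨0, measure_ne_top _ _⟩
  have h3 : ENNReal.ofReal (1 / 2) ≤ Q (⋂ k, F k) := ge_of_tendsto' hlim hlow
  have h4 : (⋂ k, F k) ⊆ {ω | HasInfiniteComponent (openGraph ω)} := by
    intro ω hω
    rw [Set.mem_iInter] at hω
    refine ⟨(openGraph ω).connectedComponentMk 1, ?_⟩
    intro hfin
    obtain ⟨n, hn⟩ := Set.mem_iUnion.1 (hω hfin.toFinset.card)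
    obtain ⟨hkn, hcard⟩ := Set.mem_iUnion.1 hn
    have hcard' : 2 ^ n ≤ (DD Γ n 1 ω).card := hcard
    have hsub : DD Γ n 1 ω ⊆ hfin.toFinset := by
      intro y hy
      rw [Set.Finite.mem_toFinset, SimpleGraph.ConnectedComponent.mem_supp_iff,
        SimpleGraph.ConnectedComponent.eq]
      exact ((DD_local Γ n).reach 1 ω y hy).symm
    have h5 := Finset.card_le_card hsub
    have h6 : n < 2 ^ n := Nat.lt_two_pow_self
    omega
  intro h0
  have h7 := h3.trans ((measure_mono h4).trans h0.le)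
  rw [nonpos_iff_eq_zero, ENNReal.ofReal_eq_zero] at h7
  norm_num at h7

/-- the geometric distribution with ratio `2/3` -/
noncomputable def geo : PMF ℕ :=
  ⟨fun n => ENNReal.ofReal ((1 / 3) * (2 / 3) ^ n), by
    have h1 : HasSum (fun n : ℕ => (1 / 3 : ℝ) * (2 / 3) ^ n) 1 := by
      have h := (hasSum_geometric_of_lt_one (r := (2 / 3 : ℝ)) (by norm_num)
        (by norm_num)).mul_left (1 / 3)
      norm_num at h ⊢
      exact h
    have h2 := (ENNReal.hasSum_toReal (f := fun n : ℕ => ENNReal.ofReal ((1 / 3) * (2 / 3) ^ n)))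
    rw [Summable.hasSum_iff ENNReal.summable]
    rw [← ENNReal.ofReal_tsum_of_nonneg (fun n => by positivity) h1.summable, h1.tsum_eq]
    simp⟩

theorem geo_apply (n : ℕ) : geo n = ENNReal.ofReal ((1 / 3) * (2 / 3) ^ n) := rfl

/-- the mixture of the uniform distributions on `BB n ∪ {en n}` -/
noncomputable def mu0 (en : ℕ → Γ) : PMF Γ :=
  geo.bind fun n => PMF.uniformOfFinset (insert (en n) (BB Γ n)) (Finset.insert_nonempty _ _)

theorem mu0_lower (en : ℕ → Γ) (n : ℕ) {b : Γ} (hb : b ∈ insert (en n) (BB Γ n)) :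
    ENNReal.ofReal (2 * mm n) ≤ mu0 Γ en b := by
  unfold mu0
  rw [PMF.bind_apply]
  refine le_trans ?_ (ENNReal.le_tsum n)
  rw [PMF.uniformOfFinset_apply_of_mem _ hb, geo_apply]
  have hc : (insert (en n) (BB Γ n)).card ≤ 192 * 2 ^ n + 1 := by
    refine (Finset.card_insert_le _ _).trans ?_
    rw [BB_card]
  have hc0 : 0 < (insert (en n) (BB Γ n)).card := Finset.card_pos.2 ⟨b, hb⟩
  have h1 : ((insert (en n) (BB Γ n)).card : ℝ≥0∞) =
      ENNReal.ofReal ((insert (en n) (BB Γ n)).card : ℝ) := by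
    rw [ENNReal.ofReal_natCast]
  rw [h1, ← ENNReal.ofReal_inv_of_pos (by exact_mod_cast hc0),
    ← ENNReal.ofReal_mul (by positivity)]
  apply ENNReal.ofReal_le_ofReal
  unfold mm
  have hc' : ((insert (en n) (BB Γ n)).card : ℝ) ≤ 192 * 2 ^ n + 1 := by exact_mod_cast hc
  have hc0' : (0 : ℝ) < ((insert (en n) (BB Γ n)).card : ℝ) := by exact_mod_cast hc0
  have e : 2 * (1 / 3 * (2 / 3 : ℝ) ^ n / (2 * (192 * 2 ^ n + 1))) =
      1 / 3 * (2 / 3) ^ n * (192 * 2 ^ n + 1)⁻¹ := by
    field_simp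
  rw [e]
  exact mul_le_mul_of_nonneg_left (inv_anti₀ hc0' hc') (by positivity)

/-- the symmetrized mixture -/
noncomputable def mu1 (en : ℕ → Γ) : PMF Γ :=
  ⟨fun g => (mu0 Γ en g + mu0 Γ en g⁻¹) / 2, by
    rw [Summable.hasSum_iff ENNReal.summable]
    simp_rw [ENNReal.div_eq_inv_mul]
    have h1 : ∑' a : Γ, mu0 Γ en a⁻¹ = ∑' a : Γ, mu0 Γ en a :=
      (Equiv.inv Γ).tsum_eq (fun g => mu0 Γ en g)
    rw [ENNReal.tsum_mul_left, ENNReal.tsum_add, h1, PMF.tsum_coe, one_add_one_eq_two]
    exact ENNReal.inv_mul_cancel (by norm_num) (by norm_num)⟩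

theorem mu1_apply (en : ℕ → Γ) (g : Γ) : mu1 Γ en g = (mu0 Γ en g + mu0 Γ en g⁻¹) / 2 := rfl

theorem mu1_lower (en : ℕ → Γ) (n : ℕ) {b : Γ} (hb : b ∈ insert (en n) (BB Γ n)) :
    ENNReal.ofReal (mm n) ≤ mu1 Γ en b := by
  rw [mu1_apply]
  have h1 := mu0_lower Γ en n hb
  have hm : 0 ≤ mm n := by unfold mm; positivity
  have h2 : ENNReal.ofReal (mm n) = ENNReal.ofReal (2 * mm n) / 2 := by
    rw [ENNReal.ofReal_mul (by norm_num), ENNReal.ofReal_ofNat, mul_comm,
      ENNReal.mul_div_cancel_right (by norm_num) (by norm_num)]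
  rw [h2]
  exact ENNReal.div_le_div_right (h1.trans le_self_add) _

/-- the generating measure -/
noncomputable def genMeas (en : ℕ → Γ) (hen : Function.Surjective en) : GeneratingMeasure Γ where
  mass := mu1 Γ en
  symm g := by rw [mu1_apply, mu1_apply, inv_inv, add_comm]
  gen := by
    rw [eq_top_iff]
    intro g _
    apply Subgroup.subset_closure
    obtain ⟨n, rfl⟩ := hen g
    rw [PMF.mem_support_iff]
    have h1 := mu1_lower Γ en n (Finset.mem_insert_self (en n) (BB Γ n))
    have h2 : 0 < ENNReal.ofReal (mm n) := by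
      rw [ENNReal.ofReal_pos]
      unfold mm; positivity
    exact (h2.trans_le h1).ne'

omit [Infinite Γ] in
theorem op_prob (μ : GeneratingMeasure Γ) (t : ℝ≥0) (x b : Γ) (hb : b ≠ 1) {m : ℝ} (hm0 : 0 ≤ m)
    (hm : ENNReal.ofReal m ≤ μ.mass b) (ht : 384 ≤ t) :
    1 - Real.exp (-(384 * m)) ≤ (law μ t).real (op x (x * b)) := by
  have hne : ¬ (s(x, x * b)).IsDiag := by
    rw [Sym2.mk_isDiag_iff]
    intro h
    exact hb (left_eq_mul.1 h)
  set e0 : Pair Γ := ⟨s(x, x * b), hne⟩ with he0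
  have h1 : (op x (x * b))ᶜ = Function.eval e0 ⁻¹' {0} := by
    ext ω
    simp only [op, openGraph, Set.mem_compl_iff, Set.mem_ofPred_eq, not_exists, not_lt,
      nonpos_iff_eq_zero, Set.mem_preimage, Function.eval, Set.mem_singleton_iff]
    exact ⟨fun h => h hne, fun h _ => h⟩
  have h2 : (law μ t).real (op x (x * b))ᶜ = Real.exp (-(t * weight μ e0)) := by
    rw [h1, law, measureReal_def, ← Measure.map_apply (measurable_pi_apply e0)
      (MeasurableSet.singleton 0), Measure.infinitePi_map_eval, ← measureReal_def,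
      poissonMeasure_real_singleton]
    simp
  have hmeas : MeasurableSet (op x (x * b)) := (op_det _ _).meas (ed_finite _ _)
  have : IsProbabilityMeasure (law μ t) := by unfold law; infer_instance
  rw [probReal_compl_eq_one_sub hmeas] at h2
  have hw : m ≤ weight μ e0 := by
    have hw1 : weight μ e0 = (μ.mass b).toNNReal := by
      show (μ.mass (x⁻¹ * (x * b))).toNNReal = _
      rw [inv_mul_cancel_left]
    rw [hw1]
    show m ≤ (μ.mass b).toReal
    exact (ENNReal.ofReal_le_iff_le_toReal (PMF.apply_ne_top _ _)).1 hm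
  have h3 : Real.exp (-(t * weight μ e0)) ≤ Real.exp (-(384 * m)) := by
    rw [Real.exp_le_exp]
    have ht' : (384 : ℝ) ≤ t := by exact_mod_cast ht
    have : 384 * m ≤ t * weight μ e0 := mul_le_mul ht' hw hm0 (by positivity)
    linarith
  linarith

end Construction

/-- **Every countably infinite group admits a generating measure with finite critical
parameter.** -/
theorem result (Γ : Type*) [Group Γ] [Countable Γ] [Infinite Γ] :
    ∃ μ : GeneratingMeasure Γ, criticalParameter μ < ⊤ := by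
  classical
  obtain ⟨en, hen⟩ := exists_surjective_nat Γ
  refine ⟨genMeas Γ en hen, ?_⟩
  have hle : criticalParameter (genMeas Γ en hen) ≤ 384 := by
    apply sSup_le
    rintro s ⟨t, _, h0, rfl⟩
    by_contra hcon
    have ht : 384 ≤ t := by
      have : (384 : ℝ≥0∞) < t := not_le.1 hcon
      have : (384 : ℝ≥0) < t := by exact_mod_cast this
      exact this.le
    refine infinite_prob Γ (P := fun e : Pair Γ =>
      poissonMeasure (t * weight (genMeas Γ en hen) e)) ?_ h0
    intro n b hb x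
    refine op_prob Γ (genMeas Γ en hen) t x b ?_ (by unfold mm; positivity)
      (mu1_lower Γ en n (Finset.mem_insert_of_mem hb)) ht
    rintro rfl
    have h1 := BB_1 Γ n 1 hb
    have h2 : (1 : Γ) ∈ RR Γ n := (DD_local Γ n).one_mem
    refine Finset.disjoint_left.1 h1 h2 ?_
    have := Finset.mul_mem_mul (Finset.mul_mem_mul h2 (Finset.mem_singleton_self (1 : Γ))) h2
    simpa using this
  exact hle.trans_lt (by norm_num)

end Pool.Agent.Results.MP_9aa340_pr.FiniteThreshold
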